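import Pool.Agent.Run7.h381.WU.Stm

/-!
# Project WU (MP_688e31_pr): the sampling kernels (piece KER)
-/

set_option autoImplicit false

namespace Run7.h814.WU

open MeasureTheory Filter Finset
open scoped ENNReal Topology unitInterval
open Pool.Agent.TH968.UST (Conn IsSpan trees wired touch ustProb)
open Run7.h381.WU

/-- a uniform label chooses a uniform element of `Fin p` -/
lemma exists_idx (p : ℕ) (hp : 0 < p) : ∃ f : I → Fin p, Measurable f ∧
    ∀ j, (volume (f ⁻¹' {j})).toReal = 1 / (p : ℝ) := by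
  have : Nonempty (Fin p) := ⟨⟨0, hp⟩⟩
  have : NeZero p := ⟨hp.ne'⟩
  let μ : Measure (Fin p) := (PMF.uniformOfFintype (Fin p)).toMeasure
  obtain ⟨f, hf, hμ⟩ := MeasureTheory.Measure.exists_measurable_map_eq μ
  refine ⟨f, hf, fun j => ?_⟩
  rw [← Measure.map_apply hf (measurableSet_singleton j), hμ]
  simp only [μ]
  rw [PMF.toMeasure_apply_singleton _ _ (measurableSet_singleton j)]
  simp [PMF.uniformOfFintype_apply]

/-- Hall's theorem and a uniform label -/
lemma kernel_aux {α : Type} [DecidableEq α] [Inhabited α] (A B : Finset α) (ρ : α → α → Prop)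
    (hA : A.Nonempty)
    (hall : ∀ X ⊆ A, ∃ Y ⊆ B, (∀ T' ∈ Y, ∃ T ∈ X, ρ T T') ∧ X.card * B.card ≤ Y.card * A.card) :
    ∃ k : α → I → α, (∀ T' T, MeasurableSet {ξ | k T' ξ = T}) ∧
      (∀ T' ∈ B, ∀ ξ, k T' ξ ∈ A ∧ ρ (k T' ξ) T') ∧
      ∀ T ∈ A, ∑ T' ∈ B, (volume {ξ | k T' ξ = T}).toReal = (B.card : ℝ) / A.card := by
  classical
  have hp : 0 < A.card := hA.card_pos
  obtain ⟨idx, hidx, hvol⟩ := exists_idx A.card hp
  let t : (A × Fin B.card) → Finset (B × Fin A.card) :=
    fun x => Finset.univ.filter (fun y => ρ x.1 y.1)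
  have hH : ∀ s : Finset (A × Fin B.card), s.card ≤ (s.biUnion t).card := by
    intro s
    let X : Finset α := (s.image (fun x => (x.1 : α)))
    have hX : X ⊆ A := by
      intro a ha
      simp only [X, Finset.mem_image] at ha
      obtain ⟨x, _, rfl⟩ := ha
      exact x.1.2
    have h1 : s.card ≤ X.card * B.card := by
      have : s.card ≤ (X ×ˢ (Finset.univ : Finset (Fin B.card))).card := by
        apply Finset.card_le_card_of_injOn (fun x => ((x.1 : α), x.2))
        · intro x hx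
          simp only [Finset.coe_product, Finset.coe_univ, Set.mem_prod, Finset.mem_coe, Set.mem_univ,
            and_true, X, Finset.mem_image]
          exact ⟨x, hx, rfl⟩
        · intro x _ y _ hxy
          simp only [Prod.mk.injEq] at hxy
          exact Prod.ext (Subtype.ext hxy.1) hxy.2
      rwa [Finset.card_product, Finset.card_univ, Fintype.card_fin] at this
    obtain ⟨Y, hYB, hY, hle⟩ := hall X hX
    have h2 : Y.card * A.card ≤ (s.biUnion t).card := by
      have : (Y ×ˢ (Finset.univ : Finset (Fin A.card))).card ≤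
          ((s.biUnion t).image (fun y => ((y.1 : α), y.2))).card := by
        apply Finset.card_le_card
        rintro ⟨T', j⟩ h
        simp only [Finset.mem_product, Finset.mem_univ, and_true] at h
        have hT' := hYB h
        obtain ⟨T, hT, hρ⟩ := hY _ h
        simp only [X, Finset.mem_image] at hT
        obtain ⟨x, hx, rfl⟩ := hT
        simp only [Finset.mem_image, Finset.mem_biUnion]
        refine ⟨(⟨T', hT'⟩, j), ⟨x, hx, ?_⟩, rfl⟩
        simp only [t, Finset.mem_filter, Finset.mem_univ, true_and]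
        exact hρ
      rw [Finset.card_product, Finset.card_univ, Fintype.card_fin] at this
      exact this.trans Finset.card_image_le
    exact h1.trans (hle.trans h2)
  obtain ⟨f, hf, hft⟩ := (Finset.all_card_le_biUnion_card_iff_exists_injective t).1 hH
  have hcard : Fintype.card (A × Fin B.card) = Fintype.card (B × Fin A.card) := by
    simp [Fintype.card_prod, mul_comm]
  have hbij : Function.Bijective f := (Fintype.bijective_iff_injective_and_card f).2 ⟨hf, hcard⟩
  let g := Equiv.ofBijective f hbij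
  refine ⟨fun T' ξ => if h : T' ∈ B then ((g.symm (⟨T', h⟩, idx ξ)).1 : α) else default,
    ?_, ?_, ?_⟩
  · intro T' T
    by_cases h : T' ∈ B
    · have : {ξ | (if h : T' ∈ B then ((g.symm (⟨T', h⟩, idx ξ)).1 : α) else default) = T} =
          idx ⁻¹' {j | ((g.symm (⟨T', h⟩, j)).1 : α) = T} := by
        ext ξ
        simp [h]
      rw [this]
      exact hidx (Set.toFinite _).measurableSet
    · by_cases hd : (default : α) = T
      · simp [h, hd]
      · simp [h, hd]
  · intro T' hT' ξ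
    simp only [hT', dif_pos]
    refine ⟨(g.symm (⟨T', hT'⟩, idx ξ)).1.2, ?_⟩
    have h1 := hft (g.symm (⟨T', hT'⟩, idx ξ))
    have h2 : f (g.symm (⟨T', hT'⟩, idx ξ)) = (⟨T', hT'⟩, idx ξ) :=
      g.apply_symm_apply (⟨T', hT'⟩, idx ξ)
    rw [h2] at h1
    simpa [t] using h1
  · intro T hT
    have hv : ∀ T' (h : T' ∈ B), (volume {ξ | (if h : T' ∈ B then
        ((g.symm (⟨T', h⟩, idx ξ)).1 : α) else default) = T}).toReal =
        ∑ j : Fin A.card, if ((g.symm (⟨T', h⟩, j)).1 : α) = T then 1 / (A.card : ℝ) else 0 := by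
      intro T' h
      have hset : {ξ | (if h : T' ∈ B then ((g.symm (⟨T', h⟩, idx ξ)).1 : α) else default) = T} =
          ⋃ j ∈ (Finset.univ.filter (fun j => ((g.symm (⟨T', h⟩, j)).1 : α) = T)), idx ⁻¹' {j} := by
        ext ξ
        simp [h]
      rw [hset, measure_biUnion_finset, ENNReal.toReal_sum, ← Finset.sum_filter]
      · exact Finset.sum_congr rfl fun j _ => hvol j
      · intro j _
        exact measure_ne_top _ _
      · intro i _ j _ hij
        refine Disjoint.preimage _ ?_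
        simpa using hij
      · intro j _
        exact hidx (measurableSet_singleton j)
    calc ∑ T' ∈ B, (volume {ξ | (if h : T' ∈ B then
          ((g.symm (⟨T', h⟩, idx ξ)).1 : α) else default) = T}).toReal
        = ∑ T' ∈ B.attach, ∑ j : Fin A.card,
            if ((g.symm (T', j)).1 : α) = T then 1 / (A.card : ℝ) else 0 := by
          rw [← Finset.sum_attach]
          exact Finset.sum_congr rfl fun T' _ => hv T' T'.2
      _ = ∑ y : B × Fin A.card, if ((g.symm y).1 : α) = T then 1 / (A.card : ℝ) else 0 := by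
          rw [Fintype.sum_prod_type]
          rfl
      _ = ∑ x : A × Fin B.card, if (x.1 : α) = T then 1 / (A.card : ℝ) else 0 := by
          exact Equiv.sum_comp g.symm (fun x => if (x.1 : α) = T then 1 / (A.card : ℝ) else 0)
      _ = ∑ a : A, (if (a : α) = T then (B.card : ℝ) * (1 / (A.card : ℝ)) else 0) := by
          rw [Fintype.sum_prod_type]
          refine Finset.sum_congr rfl fun a _ => ?_
          split_ifs <;> simp
      _ = (B.card : ℝ) * (1 / (A.card : ℝ)) := by
          have : ∀ a : A, ((a : α) = T) ↔ a = ⟨T, hT⟩ := fun a => by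
            constructor
            · intro h; exact Subtype.ext h
            · intro h; rw [h]
          simp only [this, Finset.sum_ite_eq', Finset.mem_univ, if_true]
      _ = (B.card : ℝ) / A.card := by ring

/-- the condition of Hall's theorem -/
lemma hall_cond (hT1 : S_T1) (hDEL : S_DEL) [DecidableEq (Sym2 ℕ)] (E E' : Finset (Sym2 ℕ))
    (hE : E' ⊆ E) (X : Finset (Finset (Sym2 ℕ))) (hX : X ⊆ trees (⊥ : Setoid ℕ) E) :
    ∃ Y ⊆ trees (⊥ : Setoid ℕ) E', (∀ T' ∈ Y, ∃ T ∈ X, T ∩ E' ⊆ T') ∧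
      X.card * (trees (⊥ : Setoid ℕ) E').card ≤ Y.card * (trees (⊥ : Setoid ℕ) E).card := by
  classical
  have hA : (trees (⊥ : Setoid ℕ) E).Nonempty := hT1 ℕ ⊥ E
  have hB : (trees (⊥ : Setoid ℕ) E').Nonempty := hT1 ℕ ⊥ E'
  let g : Finset (Sym2 ℕ) → ℝ := fun S => if ∃ T ∈ X, T ∩ E' ⊆ S then 1 else 0
  have hg : Monotone g := by
    intro S S' hS
    simp only [g]
    by_cases h : ∃ T ∈ X, T ∩ E' ⊆ S
    · obtain ⟨T, hT, h⟩ := h
      rw [if_pos ⟨T, hT, h⟩, if_pos ⟨T, hT, h.trans hS⟩]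
    · rw [if_neg h]
      split_ifs <;> norm_num
  have hd := hDEL ℕ ⊥ E E' hE g hg
  unfold Av at hd
  generalize trees (⊥ : Setoid ℕ) E = A at *
  generalize trees (⊥ : Setoid ℕ) E' = B at *
  have hpA : (0 : ℝ) < A.card := by exact_mod_cast hA.card_pos
  have hpB : (0 : ℝ) < B.card := by exact_mod_cast hB.card_pos
  have h4 : (X.card : ℝ) ≤ ∑ T ∈ A, g (T ∩ E') := by
    calc (X.card : ℝ) = ∑ T ∈ X, (1 : ℝ) := by simp
      _ ≤ ∑ T ∈ X, g (T ∩ E') := by
          refine Finset.sum_le_sum fun T hT => ?_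
          simp only [g]
          rw [if_pos ⟨T, hT, subset_rfl⟩]
      _ ≤ ∑ T ∈ A, g (T ∩ E') := by
          refine Finset.sum_le_sum_of_subset_of_nonneg hX fun T _ _ => ?_
          simp only [g]
          split_ifs <;> norm_num
  have h5 : ∑ T' ∈ B, g T' = ((B.filter (fun T' => ∃ T ∈ X, T ∩ E' ⊆ T')).card : ℝ) := by
    simp only [g]
    rw [Finset.sum_ite]
    simp
  rw [h5, div_le_div_iff₀ hpA hpB] at hd
  have h6 : (X.card : ℝ) * B.card ≤
      ((B.filter (fun T' => ∃ T ∈ X, T ∩ E' ⊆ T')).card : ℝ) * A.card :=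
    (mul_le_mul_of_nonneg_right h4 hpB.le).trans hd
  refine ⟨B.filter (fun T' => ∃ T ∈ X, T ∩ E' ⊆ T'), Finset.filter_subset _ _,
    fun T' hT' => (Finset.mem_filter.1 hT').2, ?_⟩
  exact_mod_cast h6

theorem KER : S_T1 → S_DEL → S_KER := by
  intro hT1 hDEL
  have key : ∀ E E' : Finset (Sym2 ℕ), ∃ k : Finset (Sym2 ℕ) → I → Finset (Sym2 ℕ),
      (∀ T' T, MeasurableSet {ξ | k T' ξ = T}) ∧
      (E' ⊆ E → (∀ T' ∈ trees ⊥ E', ∀ ξ, k T' ξ ∈ trees ⊥ E ∧ k T' ξ ∩ E' ⊆ T') ∧
      ∀ T ∈ trees ⊥ E, ∑ T' ∈ trees ⊥ E', (volume {ξ | k T' ξ = T}).toReal =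
        ((trees (⊥ : Setoid ℕ) E').card : ℝ) / (trees (⊥ : Setoid ℕ) E).card) := by
    intro E E'
    by_cases hE : E' ⊆ E
    · obtain ⟨k, h1, h2, h3⟩ := kernel_aux (trees (⊥ : Setoid ℕ) E) (trees (⊥ : Setoid ℕ) E')
        (fun T T' => T ∩ E' ⊆ T') (hT1 ℕ ⊥ E) (fun X hX => hall_cond hT1 hDEL E E' hE X hX)
      exact ⟨k, h1, fun _ => ⟨h2, h3⟩⟩
    · exact ⟨fun _ _ => ∅, fun T' T => by
        by_cases h : (∅ : Finset (Sym2 ℕ)) = T <;> simp [h], fun h => absurd h hE⟩
  choose K hK using key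
  refine ⟨fun E E' => K E E', ?_, ?_, ?_, ?_⟩
  · intro E E' T' T
    exact (hK E E').1 T' T
  · intro E E' T' ξ hE hT'
    exact (((hK E E').2 hE).1 T' hT' ξ).1
  · intro E E' T' ξ hE hT'
    exact (((hK E E').2 hE).1 T' hT' ξ).2
  · intro E E' T hE hT
    exact ((hK E E').2 hE).2 T hT

end Run7.h814.WU
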